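import Pool.Agent.J4H96.ScottMain
import Pool.Agent.J4H96.DomKey

/-!
# Every finitely generated integral domain has a d-Σ₂ Scott sentence

Answer (positive) to Q1 of MP_93e0ce_lc.  The definitions (infinitary formulas, their
satisfaction, the classes `Σ_α`, `Π_α`, d-`Σ_α`, Scott sentences) are in
`Pool/Agent/J4H96/ScottDefs.lean`.

Idea: let `A` be generated by the tuple `a` and let `b` be a tuple of `A` satisfying all universal
formulas true of `a`.  Then `a ↦ b` induces an isomorphism of `A` with the subring `B` generated by
`b`, so `A` and `B` have the same finite transcendence degree and `A` is algebraic over `B`.  If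
`P ≠ 0` is a polynomial over `B` killing `x ∈ A` and `P` has exactly `k` roots in `A`, then
the fact that `P` has `k` distinct roots transfers from `b` to `a`, and the roots obtained there, which are
terms in `a`, transfer back to `k` distinct roots of `P` inside `B`: so `x ∈ B`.  Hence `b`
generates `A`, and this property yields the Scott sentence.
-/

namespace Pool.Agent.Results.MP_93e0ce_lc.IntegralDomains

open FirstOrder MvPolynomial Pool.Agent.J4H96.Scott Pool.Agent.J4H96

universe u w

theorem exists_list_inf {L : FirstOrder.Language} {α : Type*} (l : List (L.Formula α))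
    (hl : ∀ φ ∈ l, Language.BoundedFormula.IsQF φ) :
    ∃ ψ : L.Formula α, ψ.IsQF ∧ ∀ {M : Type u} [L.Structure M] (v : α → M),
      ψ.Realize v ↔ ∀ φ ∈ l, Language.Formula.Realize φ v := by
  induction l with
  | nil => exact ⟨⊤, Language.BoundedFormula.IsQF.top, fun v => by simp⟩
  | cons φ l ih =>
    obtain ⟨ψ, h1, h2⟩ := ih fun φ' h => hl φ' (List.mem_cons_of_mem _ h)
    refine ⟨φ ⊓ ψ, (hl φ List.mem_cons_self).inf h1, fun v => ?_⟩
    rw [Language.Formula.realize_inf, h2 v]
    simp

variable {A : Type u} [CommRing A]

/-- Every integer polynomial is the value of a term. -/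
theorem exists_term [Ring.CompatibleRing A] {n : ℕ} (p : MvPolynomial (Fin n) ℤ) :
    ∃ t : Language.ring.Term (Fin n), ∀ v : Fin n → A, t.realize v = aeval v p := by
  induction p using MvPolynomial.induction_on with
  | C k =>
    induction k using Int.induction_on with
    | zero => exact ⟨0, fun v => by simp⟩
    | succ k ih =>
      obtain ⟨t, ht⟩ := ih
      refine ⟨t + 1, fun v => ?_⟩
      rw [Ring.realize_add, ht, Ring.realize_one]
      simp
    | pred k ih =>
      obtain ⟨t, ht⟩ := ih
      refine ⟨t + (-1), fun v => ?_⟩
      rw [Ring.realize_add, ht, Ring.realize_neg, Ring.realize_one]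
      simp
      ring
  | add p q hp hq =>
    obtain ⟨s, hs⟩ := hp
    obtain ⟨t, ht⟩ := hq
    exact ⟨s + t, fun v => by rw [Ring.realize_add, hs, ht, map_add]⟩
  | mul_X p i hp =>
    obtain ⟨s, hs⟩ := hp
    exact ⟨s * Language.Term.var i, fun v => by
      rw [Ring.realize_mul, hs, Language.Term.realize_var, map_mul, aeval_X]⟩

/-- Every term is an integer polynomial. -/
theorem exists_poly [Ring.CompatibleRing A] {n : ℕ} (t : Language.ring.Term (Fin n)) :
    ∃ p : MvPolynomial (Fin n) ℤ, ∀ v : Fin n → A, aeval v p = t.realize v := by
  induction t with
  | var i => exact ⟨X i, fun v => by simp⟩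
  | func f ts ih =>
    choose p hp using ih
    cases f with
    | add => exact ⟨p 0 + p 1, fun v => by
        rw [map_add, hp, hp]
        exact (Ring.CompatibleRing.funMap_add fun i => (ts i).realize v).symm⟩
    | mul => exact ⟨p 0 * p 1, fun v => by
        rw [map_mul, hp, hp]
        exact (Ring.CompatibleRing.funMap_mul fun i => (ts i).realize v).symm⟩
    | neg => exact ⟨- p 0, fun v => by
        rw [map_neg, hp]
        exact (Ring.CompatibleRing.funMap_neg fun i => (ts i).realize v).symm⟩
    | zero => exact ⟨0, fun v => by
        rw [map_zero]
        exact (Ring.CompatibleRing.funMap_zero fun i => (ts i).realize v).symm⟩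
    | one => exact ⟨1, fun v => by
        rw [map_one]
        exact (Ring.CompatibleRing.funMap_one fun i => (ts i).realize v).symm⟩

theorem countable_functions : Countable (Σ l, Language.ring.Functions l) := by
  have h : Countable Language.ring.Symbols := inferInstance
  unfold Language.Symbols at h
  exact Function.Injective.countable (Sum.inl_injective (β := Σ l, Language.ring.Relations l))

theorem countable_relations : Countable (Σ l, Language.ring.Relations l) := by
  have h : Countable Language.ring.Symbols := inferInstance
  unfold Language.Symbols at h
  exact Function.Injective.countable (Sum.inr_injective (α := Σ l, Language.ring.Functions l))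

/-- **Main theorem.** Every finitely generated integral domain, as a structure in the language
`(0, 1, +, -, ·)` of rings, has a d-`Σ⁰₂` Scott sentence. -/
theorem result (A : Type u) [CommRing A] [IsDomain A] [Ring.CompatibleRing A]
    (hA : Language.Structure.FG Language.ring A) :
    ∃ φ : InfForm Language.ring 0, IsDSigma 2 φ ∧ IsScottSentence.{0, 0, w} φ A := by
  classical
  have := countable_functions
  have := countable_relations
  obtain ⟨n, a, ha⟩ := (Language.Substructure.fg_iff_exists_fin_generating_family).1
    (Language.Structure.fg_def.1 hA)
  have hterm : ∀ b : Fin n → A, (∀ x : A, ∃ t : Language.ring.Term (Fin n), t.realize b = x) ↔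
      Function.Surjective (aeval b : MvPolynomial (Fin n) ℤ →ₐ[ℤ] A) := by
    intro b
    constructor
    · intro h x
      obtain ⟨t, ht⟩ := h x
      obtain ⟨p, hp⟩ := exists_poly (A := A) t
      exact ⟨p, (hp b).trans ht⟩
    · intro h x
      obtain ⟨p, hp⟩ := h x
      obtain ⟨t, ht⟩ := exists_term (A := A) p
      exact ⟨t, (ht b).trans hp⟩
  have hgen : ∀ x : A, ∃ t : Language.ring.Term (Fin n), t.realize a = x := by
    intro x
    have hx : x ∈ Language.Substructure.closure Language.ring (Set.range a) := by
      rw [ha]
      trivial
    rw [Language.Substructure.mem_closure_iff_exists_term] at hx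
    obtain ⟨t, ht⟩ := hx
    choose f hf using fun s : Set.range a => s.2
    refine ⟨t.relabel f, ?_⟩
    rw [Language.Term.realize_relabel, ← ht]
    congr 1
    funext s
    exact hf s
  obtain ⟨φ, h1, h2⟩ := exists_dsigma_two (L := Language.ring) A a hgen (by
    intro b hb
    rw [hterm]
    -- transfer of existential formulas from `b` to `a`
    have hex : ∀ (m : ℕ) (θ : Language.ring.Formula (Fin (m + n))), θ.IsQF →
        (∃ y : Fin m → A, θ.Realize (Fin.append y b)) →
          ∃ y : Fin m → A, θ.Realize (Fin.append y a) := by
      intro m θ hθ hy
      by_contra h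
      push Not at h
      obtain ⟨y, hy⟩ := hy
      have := hb m θ.not hθ.not (fun y => by
        rw [Language.Formula.realize_not]
        exact h y) y
      rw [Language.Formula.realize_not] at this
      exact this hy
    -- quantifier-free transfer
    have hqf : ∀ (θ : Language.ring.Formula (Fin n)), θ.IsQF → θ.Realize b → θ.Realize a := by
      intro θ hθ hθb
      have e : ∀ (y : Fin 0 → A) (c : Fin n → A),
          Fin.append y c ∘ (Fin.natAdd 0 : Fin n → Fin (0 + n)) = c := by
        intro y c
        funext i
        exact Fin.append_right y c i
      obtain ⟨y, hy⟩ := hex 0 (θ.relabel (Fin.natAdd 0 : Fin n → Fin (0 + n))) (hθ.relabel _)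
        ⟨Fin.elim0, by
          rw [Language.Formula.realize_relabel, e]
          exact hθb⟩
      rw [Language.Formula.realize_relabel, e] at hy
      exact hy
    refine Dom.key a b ((hterm a).1 hgen) ?_ ?_
    · intro p
      obtain ⟨t, ht⟩ := exists_term (A := A) p
      have hz : ∀ c : Fin n → A, (Language.Term.equal t 0).Realize c ↔ aeval c p = 0 := by
        intro c
        rw [Language.Formula.realize_equal, ht, Ring.realize_zero]
      have hq : (Language.Term.equal t 0).IsQF :=
        (Language.BoundedFormula.IsAtomic.equal _ _).isQF
      constructor
      · intro h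
        by_contra h'
        have := hqf _ hq.not (by
          rw [Language.Formula.realize_not, hz]
          exact h')
        rw [Language.Formula.realize_not, hz] at this
        exact this h
      · intro h
        exact (hz a).1 (hqf _ hq ((hz b).2 h))
    · intro k d p
      -- the quantifier-free formula `y` injective and `P(y i) = 0`
      choose s hs using fun j => exists_term (A := A) (p j)
      let F : Fin k → MvPolynomial (Fin (k + n)) ℤ := fun i =>
        ∑ j, MvPolynomial.rename (Fin.natAdd k) (p j) * X (Fin.castAdd n i) ^ (j : ℕ)
      have hF : ∀ (i : Fin k) (y : Fin k → A) (c : Fin n → A),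
          aeval (Fin.append y c) (F i) = ∑ j, aeval c (p j) * y i ^ (j : ℕ) := by
        intro i y c
        simp only [F, map_sum, map_mul, map_pow, aeval_X, Fin.append_left, aeval_rename]
        refine Finset.sum_congr rfl fun j _ => ?_
        congr 2
        congr 1
        funext l
        exact Fin.append_right y c l
      choose tF htF using fun i => exists_term (A := A) (F i)
      obtain ⟨ψ, hψ, hψ'⟩ := exists_list_inf.{u} (L := Language.ring)
        ((Finset.univ : Finset (Fin k)).toList.map (fun i => (tF i).equal 0) ++
          ((Finset.univ : Finset (Fin k × Fin k)).toList.filter (fun ij => ij.1 ≠ ij.2)).map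
            (fun ij => (Language.Formula.not ((Language.Term.var (Fin.castAdd n ij.1) :
              Language.ring.Term (Fin (k + n))).equal (Language.Term.var (Fin.castAdd n ij.2))))))
        (by
          intro φ hφ
          rw [List.mem_append, List.mem_map, List.mem_map] at hφ
          rcases hφ with ⟨i, _, rfl⟩ | ⟨ij, _, rfl⟩
          · exact (Language.BoundedFormula.IsAtomic.equal _ _).isQF
          · exact (Language.BoundedFormula.IsAtomic.equal _ _).isQF.not)
      have hsem : ∀ (y : Fin k → A) (c : Fin n → A), ψ.Realize (Fin.append y c) ↔
          (Function.Injective y ∧ ∀ i, ∑ j, aeval c (p j) * y i ^ (j : ℕ) = 0) := by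
        intro y c
        rw [hψ']
        constructor
        · intro h
          refine ⟨fun i j hij => ?_, fun i => ?_⟩
          · by_contra hne
            have := h _ (List.mem_append_right _ (List.mem_map.2 ⟨(i, j), by
              simpa using hne, rfl⟩))
            rw [Language.Formula.realize_not, Language.Formula.realize_equal,
              Language.Term.realize_var, Language.Term.realize_var, Fin.append_left,
              Fin.append_left] at this
            exact this hij
          · have := h _ (List.mem_append_left _ (List.mem_map.2 ⟨i, by simp, rfl⟩))
            rw [Language.Formula.realize_equal, htF, hF, Ring.realize_zero] at this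
            exact this
        · rintro ⟨hinj, hroot⟩ φ hφ
          rw [List.mem_append, List.mem_map, List.mem_map] at hφ
          rcases hφ with ⟨i, _, rfl⟩ | ⟨ij, hij, rfl⟩
          · rw [Language.Formula.realize_equal, htF, hF, Ring.realize_zero]
            exact hroot i
          · rw [Language.Formula.realize_not, Language.Formula.realize_equal,
              Language.Term.realize_var, Language.Term.realize_var, Fin.append_left,
              Fin.append_left]
            intro h
            have : ij.1 ≠ ij.2 := by simpa using hij
            exact this (hinj h)
      rintro ⟨y, hy⟩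
      obtain ⟨y', hy'⟩ := hex k ψ hψ ⟨y, (hsem y b).2 hy⟩
      exact ⟨y', (hsem y' a).1 hy'⟩)
  exact ⟨φ, h1, fun M _ _ => h2 M⟩

end Pool.Agent.Results.MP_93e0ce_lc.IntegralDomains
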